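import Pool.Agent.V11242.SN.Exists
import Pool.Agent.V11242.SN.Ground

/-!
# It is consistent that one ideal on `ω` has continuum many slalom numbers

* There are a linearly ordered set `Ξ`, sets `L ξ` and `K ξ` (`ξ ∈ Ξ`), and a preordered set of
  forcing conditions (adding `κ` Cohen reals, where `κ = ℶ_κ` is of cofinality `ℵ₁`) which satisfies
  the countable chain condition and forces the sentence `ChiFor Ξ L K`: `Ξ` has the cardinality of
  the continuum, and for every `ξ ∈ Ξ` there is an ideal on `ω` (generated by the finite sets and
  a family indexed by `K ξ`) such that some family of functions from `ω` to `ω` indexed by `L ξ`,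
  but no family indexed by `L η` for some `η < ξ`, contains for every function a function which
  agrees with it on a set outside of the ideal.
* In ZFC, `ChiFor Ξ L K` implies that there is an ideal `J` on `ω` such that the set `V_J` of the
  values of the slalom numbers `𝔰𝔩_t(h, J)`, `𝔰𝔩_e(h, J)`, `𝔰𝔩_t^⊥(h, J)`, `𝔰𝔩_e^⊥(h, J)`, for
  this `J` and all `h`, is of the cardinality of the continuum. (The ideals with index `ξ` are
  transported to the members of an almost disjoint family, and `J` is the set of all `A` whose
  intersection with each member of the family belongs to the respective ideal.)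

The forcing language is the one of `Pool.Agent.Helper669.Forcing`: a sentence is the set of the
conditions which force it; `fnot`, `fand`, `fall` are the usual clauses of the definition of forcing
and `fimp`, `fex` are defined from them classically. `ChiHolds P Ξ L K` is the translation of
`ChiFor Ξ L K` into the forcing language.
-/

set_option autoImplicit false

namespace Pool.Agent.Results.MP_8b2a7f_lc.ContinuumManyValues

open Cardinal Pool.Agent.V11242.SN

theorem result :
    (∃ (Ξ : Type) (_ : LinearOrder Ξ) (L K : Ξ → Type) (P : Type) (_ : Preorder P), Nonempty P ∧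
      (∀ A : Set P, (∀ p ∈ A, ∀ q ∈ A, p ≠ q → ¬ ∃ r, r ≤ p ∧ r ≤ q) → A.Countable) ∧
      ∀ p : P, p ∈ ChiHolds P Ξ L K) ∧
    (∀ (Ξ : Type) [LinearOrder Ξ] (L K : Ξ → Type), ChiFor Ξ L K →
      ∃ J : Set (Set ℕ), IsIdeal J ∧ #(Values J) = 𝔠) :=
  ⟨exists_forcing, fun _ _ _ _ h => exists_ideal h⟩

end Pool.Agent.Results.MP_8b2a7f_lc.ContinuumManyValues
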